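import Pool.Agent.helper80.EN.Spec

/-!
# EN, row SOL: solvable groups have `P`
-/

set_option autoImplicit false

namespace Pool.Agent.helper80.EN

open Subgroup

universe u

private theorem nilp_of_comm {G : Type u} [Group G] (h : ∀ a b : G, a * b = b * a) :
    Group.IsNilpotent G := by
  let _ : CommGroup G := { (inferInstance : Group G) with mul_comm := h }
  exact CommGroup.isNilpotent

private theorem P_of_comm {M : Type u} [Group M] (h : ∀ a b : M, a * b = b * a) : P M := by
  intro α _ K _ _
  exact nilp_of_comm (fun a b => Subtype.ext (h a b))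

private theorem P_of_derived (PEX : PEX_stmt.{u}) (n : ℕ) :
    ∀ (B : Type u) [Group B], derivedSeries B n = ⊥ → P B := by
  induction n with
  | zero =>
    intro B _ h
    refine P_of_comm (fun a b => ?_)
    have ha : a ∈ derivedSeries B 0 := by simp
    have hb : b ∈ derivedSeries B 0 := by simp
    rw [h, mem_bot] at ha hb
    rw [ha, hb]
  | succ n ih =>
    intro B _ h
    refine PEX B (derivedSeries B n) ?_ ?_
    · refine P_of_comm (fun a b => Subtype.ext ?_)
      have h1 := commutator_mem_commutator a.2 b.2
      rw [← derivedSeries_succ, h, mem_bot, commutatorElement_eq_one_iff_mul_comm] at h1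
      exact h1
    · refine ih (B ⧸ derivedSeries B n) ?_
      have h2 := map_derivedSeries_eq (f := QuotientGroup.mk' (derivedSeries B n))
        (QuotientGroup.mk'_surjective _) n
      rw [← h2]
      exact QuotientGroup.map_mk'_self _

private theorem del_mem {B : Type u} [Group B] (α : MulAut B) (b : B) : del α b ∈ Bra α :=
  subset_closure ⟨b, rfl⟩

private theorem Bra_normal {B : Type u} [Group B] (α : MulAut B) : (Bra α).Normal := by
  have key : ∀ k : B, ∀ x ∈ Bra α, k⁻¹ * x * k ∈ Bra α := by
    intro k x hx
    induction hx using closure_induction with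
    | mem x hx =>
      obtain ⟨b, rfl⟩ := hx
      have e : k⁻¹ * del α b * k = del α (b * k) * (del α k)⁻¹ := by
        simp only [del, map_mul]
        group
      rw [e]
      exact mul_mem (del_mem α _) (inv_mem (del_mem α _))
    | one => simp
    | mul x y _ _ hx hy =>
      have e : k⁻¹ * (x * y) * k = (k⁻¹ * x * k) * (k⁻¹ * y * k) := by group
      rw [e]
      exact mul_mem hx hy
    | inv x _ hx =>
      have e : k⁻¹ * x⁻¹ * k = (k⁻¹ * x * k)⁻¹ := by group
      rw [e]
      exact inv_mem hx
  refine ⟨fun x hx k => ?_⟩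
  have := key k⁻¹ x hx
  rwa [inv_inv] at this

private theorem map_Bra {B : Type u} [Group B] (α : MulAut B) : ∀ m ∈ Bra α, α m ∈ Bra α := by
  intro m hm
  induction hm using closure_induction with
  | mem x hx =>
    obtain ⟨b, rfl⟩ := hx
    have e : α (del α b) = del α (α b) := by simp [del]
    rw [e]
    exact del_mem α _
  | one => simp
  | mul x y _ _ hx hy =>
    rw [map_mul]
    exact mul_mem hx hy
  | inv x _ hx =>
    rw [map_inv]
    exact inv_mem hx

private theorem inv_map_Bra {B : Type u} [Group B] (α : MulAut B) :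
    ∀ m ∈ Bra α, α⁻¹ m ∈ Bra α := by
  intro m hm
  induction hm using closure_induction with
  | mem x hx =>
    obtain ⟨b, rfl⟩ := hx
    have e : α⁻¹ (del α b) = del α (α⁻¹ b) := by simp [del]
    rw [e]
    exact del_mem α _
  | one => simp
  | mul x y _ _ hx hy =>
    rw [map_mul]
    exact mul_mem hx hy
  | inv x _ hx =>
    rw [map_inv]
    exact inv_mem hx

/-- The restriction of `α` to `[B, α]`. -/
private noncomputable def rst {B : Type u} [Group B] (α : MulAut B) : MulAut (Bra α) where
  toFun m := ⟨α m, map_Bra α m m.2⟩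
  invFun m := ⟨α⁻¹ m, inv_map_Bra α m m.2⟩
  left_inv m := Subtype.ext (by simp)
  right_inv m := Subtype.ext (by simp)
  map_mul' m n := Subtype.ext (by simp)

private theorem rst_apply {B : Type u} [Group B] (α : MulAut B) (m : Bra α) :
    ((rst α m : Bra α) : B) = α m := rfl

private theorem del_rst {B : Type u} [Group B] (α : MulAut B) (m : Bra α) :
    ((del (rst α) m : Bra α) : B) = del α m := by
  simp [del, rst_apply]

private theorem del_rst_iter {B : Type u} [Group B] (α : MulAut B) (n : ℕ) (m : Bra α) :
    (((del (rst α))^[n] m : Bra α) : B) = (del α)^[n] m := by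
  induction n generalizing m with
  | zero => rfl
  | succ n ih => rw [Function.iterate_succ_apply, Function.iterate_succ_apply, ih, del_rst]

/-- Row SOL. -/
theorem SOL (PEX : PEX_stmt.{u}) (EXB : EXB_stmt.{u}) (TRF : TRF_stmt.{u}) : SOL_stmt.{u} := by
  have h1 : ∀ (B : Type u) [Group B], Group.IsSolvable B → P B := by
    intro B _ hB
    obtain ⟨n, hn⟩ := hB
    exact P_of_derived PEX n B hn
  refine ⟨h1, ?_⟩
  intro B _ α hα hs
  have _ : (Bra α).Normal := Bra_normal α
  refine EXB B α (Bra α) (map_Bra α) (inv_map_Bra α) hα ?_ ?_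
  · have h2 : LocNilp (Bra (rst α)) := by
      refine h1 (Bra α) hs (rst α) (fun b => ?_)
      obtain ⟨n, hn⟩ := hα b
      refine ⟨n, Subtype.ext ?_⟩
      rw [del_rst_iter]
      exact hn
    have h3 := (TRF (Bra α)).2.1 B (Bra α).subtype _ h2
    have e : (Bra (rst α)).map (Bra α).subtype = closure {x : B | ∃ m ∈ Bra α, x = del α m} := by
      change (closure (Set.range (del (rst α)))).map (Bra α).subtype = _
      rw [MonoidHom.map_closure]
      congr 1
      ext x
      constructor
      · rintro ⟨_, ⟨m, rfl⟩, rfl⟩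
        exact ⟨m, m.2, del_rst α m⟩
      · rintro ⟨m, hm, rfl⟩
        exact ⟨_, ⟨⟨m, hm⟩, rfl⟩, del_rst α ⟨m, hm⟩⟩
    rw [← e]
    exact h3
  · rw [QuotientGroup.map_mk'_self]
    refine (TRF (B ⧸ Bra α)).2.2.2.2.1 ⊥ ?_
    refine nilp_of_comm (fun a b => Subtype.ext ?_)
    have ha := a.2
    have hb := b.2
    rw [mem_bot] at ha hb
    rw [Subgroup.coe_mul, Subgroup.coe_mul, ha, hb]

end Pool.Agent.helper80.EN
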